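import Pool.Agent.Lib.MP_80affc_lc.Beth
import Pool.Agent.Lib.MP_80affc_lc.Cor

/-!
# MP_80affc_lc : `φ(0)` is equivalent to joint compactness for decreasing sequences of graphs
-/

set_option autoImplicit false

namespace Pool.Agent.Results.MP_80affc_lc.JointCompactness

open Cardinal Ordinal ChromComp

theorem result : phi 0 ↔
    ∀ (V : Type) (G : ℕ → SimpleGraph V), #V = ℵ_ (ω + 1) → (∀ m, G (m + 1) ≤ G m) →
      (∀ m : ℕ, ∀ W : Set V, #W ≤ ℵ_ (m : Ordinal) → ChromLE ((G m).induce W) ℵ₀) →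
      ∃ c : V → ℕ, ∀ x y, c x = c y → ¬ (G (c x)).Adj x y := by
  constructor
  · intro h V G hV hG hsmall
    obtain ⟨c, hc⟩ := joint_levels h V hV G (antitone_nat_of_succ_le hG) hsmall
    exact ⟨c, fun x y hxy => hc x (Set.mem_univ _) y (Set.mem_univ _) hxy⟩
  · intro h
    rw [phi_zero_iff]
    intro V G hV hG
    obtain ⟨c, hc⟩ := h V (fun _ => G) hV (fun _ => le_rfl) (fun m W hW => by
      apply hG W (hW.trans_lt _)
      rw [aleph_lt_aleph]
      exact (natCast_lt_omega0 m).trans (lt_add_one ω))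
    exact ⟨ℕ, mk_nat.le, ⟨SimpleGraph.Coloring.mk c (fun {x y} hadj heq => hc x y heq hadj)⟩⟩

end Pool.Agent.Results.MP_80affc_lc.JointCompactness
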