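import Pool.Agent.Lib.MP_80affc_lc.Cor

/-!
# MP_80affc_lc : `φ(0)` refutes the principle ADS at `ℵ_ω`
-/

set_option autoImplicit false

namespace Pool.Agent.Results.MP_80affc_lc.NoDisjointSeqs

open Cardinal Ordinal ChromComp

theorem result (h : phi 0) (V P : Type) (hV : #V = ℵ_ (ω + 1)) (hP : #P ≤ ℵ_ ω)
    (a : V → ℕ → P) :
    ∃ W : Set V, #W < ℵ_ (ω + 1) ∧ ∀ F : V → ℕ, ∃ x ∈ W, ∃ y ∈ W, x ≠ y ∧ F x = F y ∧
      ∀ n ≤ F x, a x n = a y n :=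
  no_sequences h V P hV hP a

end Pool.Agent.Results.MP_80affc_lc.NoDisjointSeqs
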