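import Pool.Agent.Lib.MP_80affc_lc.Beth

/-!
# MP_80affc_lc : `φ(0)` implies stationary reflection at the cofinalities `ℵ₀, 2^ℵ₀, 2^(2^ℵ₀), ...`
-/

set_option autoImplicit false

namespace Pool.Agent.Results.MP_80affc_lc.Reflection

open Cardinal Ordinal ChromComp

theorem result (h : phi 0) (S : Set Ordinal.{0})
    (hS : ∀ δ ∈ S, ∃ j : ℕ, δ.cof = ℶ_ (j : Ordinal.{0})) (hst : StatAt S (ω_ (ω + 1))) :
    Reflects S (ω_ (ω + 1)) :=
  reflect_beth h hS hst

end Pool.Agent.Results.MP_80affc_lc.Reflection
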