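import Pool.Agent.Lib.MP_80affc_lc.Better

/-!
# MP_80affc_lc : `φ(0)` implies that products of alephs below `ℵ_ω` have unbounded families of size
`ℵ_(ω+1)`
-/

set_option autoImplicit false

namespace Pool.Agent.Results.MP_80affc_lc.UnboundedProducts

open Cardinal Ordinal ChromComp

theorem result (h : phi 0) (i : ℕ → ℕ) (hi : StrictMono i) :
    ∃ F : (ℵ_ (ω + 1) : Cardinal.{0}).ord.ToType → ℕ → Ordinal.{0},
      (∀ b n, F b n < ω_ (i n : Ordinal.{0})) ∧
      ∀ g : ℕ → Ordinal.{0}, (∀ n, g n < ω_ (i n : Ordinal.{0})) →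
        ∃ b, ∀ k, ∃ n ≥ k, g n < F b n :=
  exists_unbounded h i hi

end Pool.Agent.Results.MP_80affc_lc.UnboundedProducts
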